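import Pool.Agent.K3h56.E2.Stm2
import Pool.Agent.K3h66.E2.Lim

/-!
# The leading term of `L_S(χ, s)` at `s = 0`, exact form

Brick LIMX for `Pool.Agent.K3h56.E2.Stm2`.
-/

set_option autoImplicit false

open NumberField IsDedekindDomain Filter Topology

noncomputable section

namespace Pool.Agent.K3h11.E2

open Pool.Agent.K3h30.RS Pool.Agent.K3h56.E2 Pool.Agent.K3h66.E2

/-- the finite product at `0` -/
theorem lim_one {V : Type} (S : Finset V) (N : V → ℕ) (hN : ∀ v, 2 ≤ N v) :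
    Tendsto (fun s : ℂ => (s ^ S.card)⁻¹ * ∏ v ∈ S, (1 - (N v : ℂ) ^ (-s))) (𝓝[≠] 0)
      (𝓝 ((∏ v ∈ S, Real.log (N v) : ℝ) : ℂ)) := by
  have h := lim_prod S N hN (fun _ => 1)
  have hf : (S.filter fun _ => (1 : ℤ) = 1) = S := by
    rw [Finset.filter_true_of_mem]
    intro v _
    rfl
  have hf' : (S.filter fun _ => ¬ (1 : ℤ) = 1) = ∅ := by
    rw [Finset.filter_false_of_mem]
    intro v _ h
    exact h rfl
  rw [hf, hf', Finset.prod_empty, mul_one] at h
  have e : ∀ v, Complex.log (N v) = ((Real.log (N v) : ℝ) : ℂ) := fun v =>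
    (Complex.natCast_log).symm
  simp_rw [e] at h
  rw [← Complex.ofReal_prod] at h
  refine h.congr fun s => ?_
  simp only [Int.cast_one, one_mul]

theorem diff_one {V : Type} (S : Finset V) (N : V → ℕ) (hN : ∀ v, 2 ≤ N v) :
    Differentiable ℂ (fun s : ℂ => ∏ v ∈ S, (1 - (N v : ℂ) ^ (-s))) := by
  have h := diff_prod S N hN (fun _ => 1)
  simpa only [Int.cast_one, one_mul] using h

/-- the prime ideal below is unique -/
theorem above_unique {F K : Type} [Field F] [NumberField F] [Field K] [NumberField K] [Algebra F K]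
    {v v' : HeightOneSpectrum (𝓞 F)} {P : HeightOneSpectrum (𝓞 K)}
    (h : Above {v} P) (h' : Above {v'} P) : v = v' := by
  obtain ⟨u, hu, h1⟩ := h
  obtain ⟨u', hu', h2⟩ := h'
  rw [Set.mem_singleton_iff] at hu hu'
  subst hu hu'
  exact HeightOneSpectrum.ext (h1.symm.trans h2)

open Classical in
/-- products over `A` -/
theorem over_prod {F K : Type} [Field F] [NumberField F] [Field K] [NumberField K] [Algebra F K]
    {S : Finset (HeightOneSpectrum (𝓞 F))} {A : Finset (HeightOneSpectrum (𝓞 K))}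
    (hA : Over S A) (f : HeightOneSpectrum (𝓞 K) → ℂ) :
    ∏ P ∈ A, f P = ∏ v ∈ S, ∏ P ∈ A.filter (fun P => Above {v} P), f P := by
  have e : A = S.biUnion fun v => A.filter (fun P => Above {v} P) := by
    ext P
    simp only [Finset.mem_biUnion, Finset.mem_filter]
    constructor
    · intro hP
      obtain ⟨v, hv, h⟩ := (hA P).1 hP
      exact ⟨v, hv, hP, h⟩
    · rintro ⟨v, hv, hP, h⟩
      exact hP
  conv_lhs => rw [e]
  refine Finset.prod_biUnion ?_
  intro v _ v' _ hne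
  rw [Function.onFun, Finset.disjoint_left]
  intro P hP hP'
  rw [Finset.mem_filter] at hP hP'
  exact hne (above_unique hP.2 hP'.2)

open Classical in
/-- the product over the prime ideals above `v` -/
theorem local_prod {F K : Type} [Field F] [NumberField F] [Field K] [NumberField K] [Algebra F K]
    {τ : K ≃ₐ[F] K} (hL : S_LOC) (hq : Quad F K τ)
    {S : Finset (HeightOneSpectrum (𝓞 F))} {A : Finset (HeightOneSpectrum (𝓞 K))}
    (hA : Over S A) {v : HeightOneSpectrum (𝓞 F)} (hv : v ∈ S) (s : ℂ) :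
    ∏ P ∈ A.filter (fun P => Above {v} P), (1 - (Ideal.absNorm P.asIdeal : ℂ) ^ (-s)) =
      (1 - (Ideal.absNorm v.asIdeal : ℂ) ^ (-s)) *
        (1 - ((loc K v : ℤ) : ℂ) * (Ideal.absNorm v.asIdeal : ℂ) ^ (-s)) := by
  obtain ⟨h1, h2⟩ := hL F K τ hq v
  by_cases hc : loc K v = 1
  · obtain ⟨P, P', hne, hab, _, _, hN, hN'⟩ := h1 hc
    have e : A.filter (fun P => Above {v} P) = {P, P'} := by
      ext Q
      rw [Finset.mem_filter, Finset.mem_insert, Finset.mem_singleton]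
      constructor
      · rintro ⟨_, h⟩
        exact (hab Q).1 h
      · intro h
        have h' := (hab Q).2 h
        exact ⟨(hA Q).2 ⟨v, hv, h'⟩, h'⟩
    rw [e, Finset.prod_pair hne, hN, hN', hc]
    simp only [Int.cast_one, one_mul]
  · obtain ⟨P, hab, _, h3⟩ := h2 hc
    have e : A.filter (fun P => Above {v} P) = {P} := by
      ext Q
      rw [Finset.mem_filter, Finset.mem_singleton]
      constructor
      · rintro ⟨_, h⟩
        exact (hab Q).1 h
      · intro h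
        have h' := (hab Q).2 h
        exact ⟨(hA Q).2 ⟨v, hv, h'⟩, h'⟩
    rw [e, Finset.prod_singleton]
    rcases h3 with ⟨hl, _, hN⟩ | ⟨hl, _, hN⟩
    · rw [hN, hl]
      have : ((Ideal.absNorm v.asIdeal ^ 2 : ℕ) : ℂ) ^ (-s) =
          (Ideal.absNorm v.asIdeal : ℂ) ^ (-s) * (Ideal.absNorm v.asIdeal : ℂ) ^ (-s) := by
        rw [pow_two, Nat.cast_mul, Complex.natCast_mul_natCast_cpow]
      rw [this]
      push_cast
      ring
    · rw [hN, hl]
      push_cast
      ring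

/-- the number of the prime ideals in `A` -/
theorem card_le {F K : Type} [Field F] [NumberField F] [Field K] [NumberField K] [Algebra F K]
    {τ : K ≃ₐ[F] K} (hL : S_LOC) (hq : Quad F K τ)
    {S : Finset (HeightOneSpectrum (𝓞 F))} {A : Finset (HeightOneSpectrum (𝓞 K))}
    (hA : Over S A) : S.card ≤ A.card := by
  have hex : ∀ v : HeightOneSpectrum (𝓞 F), ∃ P : HeightOneSpectrum (𝓞 K), Above {v} P := by
    intro v
    obtain ⟨h1, h2⟩ := hL F K τ hq v
    by_cases hc : loc K v = 1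
    · obtain ⟨P, P', hne, hab, _⟩ := h1 hc
      exact ⟨P, (hab P).2 (Or.inl rfl)⟩
    · obtain ⟨P, hab, _⟩ := h2 hc
      exact ⟨P, (hab P).2 rfl⟩
  choose g hg using hex
  refine Finset.card_le_card_of_injOn g (fun v hv => ?_) (fun v _ v' _ h => ?_)
  · exact (hA (g v)).2 ⟨v, hv, hg v⟩
  · refine above_unique (P := g v) (hg v) ?_
    rw [h]
    exact hg v'

theorem t_LIMX : S_LIMX := by
  intro hZ hE hLoc F K _ _ _ _ _ τ hq S A hA L hL hprod hle
  have hcard := card_le hLoc hq hA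
  refine ⟨by omega, ?_⟩
  obtain ⟨ZK, ⟨hK1, hK2⟩, qK, hqK, hKl⟩ := hZ K
  obtain ⟨ZF, ⟨hF1, hF2⟩, qF, hqF, hFl⟩ := hZ F
  set N : HeightOneSpectrum (𝓞 F) → ℕ := fun v => Ideal.absNorm v.asIdeal with hN
  set M : HeightOneSpectrum (𝓞 K) → ℕ := fun v => Ideal.absNorm v.asIdeal with hM
  have hN2 : ∀ v, 2 ≤ N v := two_le_norm
  have hM2 : ∀ v, 2 ≤ M v := two_le_norm
  have hc1 : ∀ v : HeightOneSpectrum (𝓞 F), ‖((loc K v : ℤ) : ℂ)‖ ≤ 1 := by
    intro v
    unfold loc
    split_ifs <;> simp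
  have hfac : ∀ s : ℂ, ∏ P ∈ A, (1 - (M P : ℂ) ^ (-s)) =
      (∏ v ∈ S, (1 - (N v : ℂ) ^ (-s))) *
        ∏ v ∈ S, (1 - ((loc K v : ℤ) : ℂ) * (N v : ℂ) ^ (-s)) := by
    intro s
    rw [over_prod hA, ← Finset.prod_mul_distrib]
    exact Finset.prod_congr rfl fun v hv => local_prod hLoc hq hA hv s
  have hid : ∀ s : ℂ, s ≠ 1 → L s * (ZF s * ∏ v ∈ S, (1 - (N v : ℂ) ^ (-s))) =
      ZK s * ∏ P ∈ A, (1 - (M P : ℂ) ^ (-s)) := by
    intro s hs
    refine ident (fun s => ZF s * ∏ v ∈ S, (1 - (N v : ℂ) ^ (-s))) ZK L _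
      (fun z hz => (hF1 z hz).mul (diff_one S N hN2 z)) hK1 hL (diff_one A M hM2)
      (fun z hz => ?_) hs
    obtain ⟨h0, h1⟩ := hE F K τ hq z hz
    have h2 := hasProd_split S (fun v => (1 - ((loc K v : ℤ) : ℂ) *
      (Ideal.absNorm v.asIdeal : ℂ) ^ (-z))⁻¹) (L z) (hprod z hz)
    have h3 : dedekindZeta K z / dedekindZeta F z =
        (∏ v ∈ S, (1 - ((loc K v : ℤ) : ℂ) * (N v : ℂ) ^ (-z))⁻¹) * L z := h1.unique h2
    rw [hfac, hF2 z hz, hK2 z hz]
    rw [Finset.prod_inv_distrib, div_eq_iff h0] at h3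
    rw [h3]
    have h4 : ∏ v ∈ S, (1 - ((loc K v : ℤ) : ℂ) * (N v : ℂ) ^ (-z)) ≠ 0 :=
      Finset.prod_ne_zero_iff.2 fun v _ => fac_ne (N v) (hN2 v) _ z (hc1 v) hz
    field_simp
  have hhF : (0 : ℝ) < classNumber F := by
    exact_mod_cast classNumber_pos F
  have hhK : (0 : ℝ) < classNumber K := by
    exact_mod_cast classNumber_pos K
  have hwF : (0 : ℝ) < Units.torsionOrder F := by
    exact_mod_cast Units.torsionOrder_pos F
  have hwK : (0 : ℝ) < Units.torsionOrder K := by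
    exact_mod_cast Units.torsionOrder_pos K
  have hRF := Units.regulator_pos F
  have hRK := Units.regulator_pos K
  have hlog : ∀ a : ℕ, 2 ≤ a → 0 < Real.log a := fun a ha =>
    Real.log_pos (by exact_mod_cast (by omega : 1 < a))
  have hpS : 0 < ∏ v ∈ S, Real.log (N v) := Finset.prod_pos fun v _ => hlog _ (hN2 v)
  have hpA : 0 < ∏ P ∈ A, Real.log (M P) := Finset.prod_pos fun v _ => hlog _ (hM2 v)
  have hqF0 : qF ≠ 0 := by
    intro h
    rw [h, abs_zero] at hqF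
    have : (0 : ℝ) < classNumber F / Units.torsionOrder F := div_pos hhF hwF
    linarith
  have hden : ((qF * Units.regulator F : ℝ) : ℂ) * ((∏ v ∈ S, Real.log (N v) : ℝ) : ℂ) ≠ 0 := by
    rw [← Complex.ofReal_mul]
    exact_mod_cast mul_ne_zero (mul_ne_zero hqF0 hRF.ne') hpS.ne'
  have hlim := (hKl.mul (lim_one A M hM2)).div (hFl.mul (lim_one S N hN2)) hden
  refine ⟨qK * Units.regulator K * (∏ P ∈ A, Real.log (M P)) /
    (qF * Units.regulator F * ∏ v ∈ S, Real.log (N v)), ?_, ?_⟩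
  · have hval : ((qK * Units.regulator K : ℝ) : ℂ) * ((∏ P ∈ A, Real.log (M P) : ℝ) : ℂ) /
        (((qF * Units.regulator F : ℝ) : ℂ) * ((∏ v ∈ S, Real.log (N v) : ℝ) : ℂ)) =
        ((qK * Units.regulator K * (∏ P ∈ A, Real.log (M P)) /
    (qF * Units.regulator F * ∏ v ∈ S, Real.log (N v)) : ℝ) : ℂ) := by
      push_cast
      rfl
    rw [hval] at hlim
    refine Tendsto.congr' ?_ hlim
    have hne : ∀ᶠ s : ℂ in 𝓝[≠] 0, ((s ^ (Fintype.card (InfinitePlace F) - 1))⁻¹ * ZF s) *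
        ((s ^ S.card)⁻¹ * ∏ v ∈ S, (1 - (N v : ℂ) ^ (-s))) ≠ 0 :=
      (hFl.mul (lim_one S N hN2)).eventually_ne hden
    have h1' : ∀ᶠ s : ℂ in 𝓝[≠] 0, s ≠ 1 :=
      (continuousAt_id.eventually_ne (by norm_num : (0 : ℂ) ≠ 1)).filter_mono nhdsWithin_le_nhds
    filter_upwards [self_mem_nhdsWithin, hne, h1'] with s hs0 hs1 hs2
    have hs0' : s ≠ 0 := hs0
    have hZF0 : ZF s ≠ 0 := right_ne_zero_of_mul (left_ne_zero_of_mul hs1)
    have hP0 : ∏ v ∈ S, (1 - (N v : ℂ) ^ (-s)) ≠ 0 :=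
      right_ne_zero_of_mul (right_ne_zero_of_mul hs1)
    have hLs : L s = ZK s * (∏ P ∈ A, (1 - (M P : ℂ) ^ (-s))) /
        (ZF s * ∏ v ∈ S, (1 - (N v : ℂ) ^ (-s))) := by
      rw [eq_div_iff (mul_ne_zero hZF0 hP0)]
      exact hid s hs2
    have hcF := card_pos F
    obtain ⟨d, hd⟩ : ∃ d, Fintype.card (InfinitePlace K) + A.card =
        d + (Fintype.card (InfinitePlace F) + S.card) := ⟨_, (Nat.sub_add_cancel (by omega)).symm⟩
    have hd' : Fintype.card (InfinitePlace K) + A.card -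
        (Fintype.card (InfinitePlace F) + S.card) = d := by omega
    have hexp : s ^ (Fintype.card (InfinitePlace K) - 1) * s ^ A.card =
        s ^ d * (s ^ (Fintype.card (InfinitePlace F) - 1) * s ^ S.card) := by
      rw [← pow_add, ← pow_add, ← pow_add]
      congr 1
      have hcK := card_pos K
      omega
    rw [hd']
    simp only [Pi.div_apply]
    rw [hLs]
    have e1 : (s ^ (Fintype.card (InfinitePlace K) - 1))⁻¹ * ZK s *
        ((s ^ A.card)⁻¹ * ∏ P ∈ A, (1 - (M P : ℂ) ^ (-s))) =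
        (s ^ d * (s ^ (Fintype.card (InfinitePlace F) - 1) * s ^ S.card))⁻¹ *
          (ZK s * ∏ P ∈ A, (1 - (M P : ℂ) ^ (-s))) := by
      rw [← hexp, mul_inv]
      ring
    rw [e1]
    field_simp
  · rw [abs_div, abs_mul, abs_mul, abs_mul, abs_mul, hqK, hqF, abs_of_pos hRK, abs_of_pos hRF,
      abs_of_pos hpS, abs_of_pos hpA]
    field_simp
    rw [mul_comm]

end Pool.Agent.K3h11.E2
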